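import Pool.Agent.H5.LightGroup

set_option autoImplicit false

namespace Pool.Agent.Results.MP_80a07b_an.AllScalars

/-- On a reflexive real or complex Banach space, a bounded SOT-discrete group of finite rank
perturbations of unimodular multiples of the identity is finite. -/
theorem result (𝕜 : Type) [RCLike 𝕜] (X : Type) [NormedAddCommGroup X] [NormedSpace 𝕜 X]
    [CompleteSpace X]
    (hrefl : ∀ φ : (X →L[𝕜] 𝕜) →L[𝕜] 𝕜, ∃ x : X, ∀ f : X →L[𝕜] 𝕜, φ f = f x)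
    (G : Subgroup (X →L[𝕜] X)ˣ) (hC : ∃ C : ℝ, ∀ g ∈ G, ‖g.val‖ ≤ C)
    (hF : ∀ g ∈ G, ∃ ε : 𝕜, ‖ε‖ = 1 ∧ ∃ s : Finset X, ∀ x : X,
      g.val x - ε • x ∈ Submodule.span 𝕜 (s : Set X))
    (hd : ∀ g ∈ G, ∃ s : Finset X, ∃ δ : ℝ, 0 < δ ∧ ∀ h ∈ G,
      (∀ x ∈ s, ‖h.val x - g.val x‖ < δ) → h = g) :
    (G : Set (X →L[𝕜] X)ˣ).Finite :=
  Pool.Agent.H5.LightGroup.finite_of_discrete hrefl G hC hF (by simpa using hd 1 G.one_mem)

end Pool.Agent.Results.MP_80a07b_an.AllScalars
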